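import Pool.Agent.Y522.Stm5
import Pool.Agent.Y522.Tools
import Pool.Agent.Y641.SH.Level

/-!
# Project CI: preparations for level preserving smoothing
-/

set_option autoImplicit false

open Set Filter Topology Metric Function
open scoped Manifold ContDiff

noncomputable section

namespace Pool.Agent.Y761.CI

open Pool.Agent.Y522

/-- A projection which is onto on a given hyperplane and through which a given functional
factors. -/
theorem exists_projl {m : ℕ} (W : Submodule ℝ (E (m + 1))) (h : Module.finrank ℝ W = m)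
    (l : E (m + 1) →ₗ[ℝ] ℝ) (hl : ∃ w ∈ W, l w ≠ 0) :
    ∃ P : E (m + 1) →L[ℝ] E m, (∀ y, ∃ w ∈ W, P w = y) ∧ ∀ v, P v = 0 → l v = 0 := by
  obtain ⟨w0, hw0, hlw⟩ := hl
  have hl' : l ≠ 0 := by
    intro h0
    apply hlw
    rw [h0]
    rfl
  have hfr : Module.finrank ℝ (LinearMap.ker l) = m := by
    have h := Module.Dual.finrank_ker_add_one_of_ne_zero (K := ℝ) (V₁ := E (m + 1)) hl'
    rw [finrank_euclideanSpace, Fintype.card_fin] at h
    omega
  obtain ⟨v0, hv0, hv0W⟩ : ∃ v0 ∈ LinearMap.ker l, v0 ∉ W := by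
    by_contra hcon
    push Not at hcon
    have hle : LinearMap.ker l ≤ W := hcon
    have heq : LinearMap.ker l = W := Submodule.eq_of_le_of_finrank_eq hle (by rw [hfr, h])
    rw [← heq] at hw0
    exact hlw hw0
  have hv0ne : v0 ≠ 0 := fun h0 => hv0W (by rw [h0]; exact W.zero_mem)
  have hq : Module.finrank ℝ (E (m + 1) ⧸ Submodule.span ℝ {v0}) = Module.finrank ℝ (E m) := by
    have h1 := Submodule.finrank_quotient_add_finrank (Submodule.span ℝ {v0})
    rw [finrank_span_singleton hv0ne, finrank_euclideanSpace, Fintype.card_fin] at h1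
    rw [finrank_euclideanSpace, Fintype.card_fin]
    omega
  let φ : (E (m + 1) ⧸ Submodule.span ℝ {v0}) ≃ₗ[ℝ] E m := LinearEquiv.ofFinrankEq _ _ hq
  let P0 : E (m + 1) →ₗ[ℝ] E m := φ.toLinearMap ∘ₗ (Submodule.span ℝ {v0}).mkQ
  have hker : ∀ v, P0 v = 0 → v ∈ Submodule.span ℝ {v0} := by
    intro v hv
    have h1 : φ ((Submodule.span ℝ {v0}).mkQ v) = 0 := hv
    have h2 : (Submodule.span ℝ {v0}).mkQ v = 0 := by
      rw [← map_zero φ] at h1
      exact φ.injective h1
    rw [Submodule.mkQ_apply, Submodule.Quotient.mk_eq_zero] at h2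
    exact h2
  refine ⟨LinearMap.toContinuousLinearMap P0, ?_, ?_⟩
  · have hinj : Injective (P0 ∘ₗ W.subtype) := by
      rw [← LinearMap.ker_eq_bot, LinearMap.ker_eq_bot']
      intro w hw
      obtain ⟨c, hc⟩ := Submodule.mem_span_singleton.1 (hker _ hw)
      by_cases hc0 : c = 0
      · rw [hc0, zero_smul] at hc
        exact Subtype.ext hc.symm
      · exfalso
        apply hv0W
        have h1 : v0 = c⁻¹ • (w : E (m + 1)) := by
          have h2 : c • v0 = (w : E (m + 1)) := hc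
          rw [← h2, smul_smul, inv_mul_cancel₀ hc0, one_smul]
        rw [h1]
        exact W.smul_mem _ w.2
    have hsurj : Surjective (P0 ∘ₗ W.subtype) := by
      have h1 : Module.finrank ℝ W = Module.finrank ℝ (E m) := by
        rw [h, finrank_euclideanSpace, Fintype.card_fin]
      exact (LinearMap.injective_iff_surjective_of_finrank_eq_finrank h1).1 hinj
    intro y
    obtain ⟨w, hw⟩ := hsurj y
    exact ⟨w, w.2, hw⟩
  · intro v hv
    obtain ⟨c, hc⟩ := Submodule.mem_span_singleton.1 (hker v hv)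
    rw [← hc, map_smul, LinearMap.mem_ker.1 hv0, smul_zero]

section ift

variable {n : ℕ} {X Y : Type} [TopologicalSpace X] [ChartedSpace (E n) X]
  [IsManifold (𝓡 n) ∞ X] [TopologicalSpace Y] [ChartedSpace (E n) Y] [IsManifold (𝓡 n) ∞ Y]

/-- the inverse function theorem -/
theorem LD_of_injective (f : X → Y) (hf : ContMDiff (𝓡 n) (𝓡 n) ∞ f) (x : X)
    (h : Injective (mfderiv (𝓡 n) (𝓡 n) f x)) : LD n f x := by
  have hφ : LD n (chartAt (E n) x : X → E n) x := Pool.Agent.Y641.SH.LD_chart x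
  have hψ : LD n (chartAt (E n) (f x) : Y → E n) (f x) := Pool.Agent.Y641.SH.LD_chart (f x)
  obtain ⟨p, hp1, hp2, hp3, hp4⟩ := hφ.exists_inverse
  obtain ⟨q, hq1, hq2, hq3, hq4⟩ := hψ.exists_inverse
  set a := chartAt (E n) x x with ha
  -- the map in the charts
  have hg : LD n (fun z => chartAt (E n) (f x) (f (p z))) a := by
    have hc : ContMDiffAt (𝓡 n) (𝓡 n) ∞ (fun z => chartAt (E n) (f x) (f (p z))) a := by
      have h1 : ContMDiffAt (𝓡 n) (𝓡 n) ∞ (chartAt (E n) (f x) : Y → E n) (f (p a)) := by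
        rw [hp2]; exact hψ.contMDiffAt
      exact h1.comp a (hf.contMDiffAt.comp a hp1.contMDiffAt)
    have hce : ∀ᶠ z in 𝓝 a, ContDiffAt ℝ ∞ (fun z => chartAt (E n) (f x) (f (p z))) z := by
      have h1 : ∀ᶠ z in 𝓝 a, LD n p z := hp1.eventually
      have h2 : ∀ᶠ y in 𝓝 (f (p a)), LD n (chartAt (E n) (f x) : Y → E n) y := by
        rw [hp2]; exact hψ.eventually
      have h3 : ContinuousAt (fun z => f (p z)) a :=
        hf.continuous.continuousAt.comp hp1.continuousAt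
      filter_upwards [h1, h3.tendsto.eventually h2] with z hz1 hz2
      exact contMDiffAt_iff_contDiffAt.1
        (hz2.contMDiffAt.comp z (hf.contMDiffAt.comp z hz1.contMDiffAt))
    let Dp : E n →L[ℝ] E n := mfderiv (𝓡 n) (𝓡 n) p a
    let Df : E n →L[ℝ] E n := mfderiv (𝓡 n) (𝓡 n) f x
    let Dψ : E n →L[ℝ] E n := mfderiv (𝓡 n) (𝓡 n) (chartAt (E n) (f x) : Y → E n) (f x)
    have d1 : HasMFDerivAt (𝓡 n) (𝓡 n) p a Dp := hp1.mdifferentiableAt.hasMFDerivAt
    have d2 : HasMFDerivAt (𝓡 n) (𝓡 n) f (p a) Df := by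
      rw [hp2]
      exact (hf.mdifferentiableAt (by simp)).hasMFDerivAt
    have d3 : HasMFDerivAt (𝓡 n) (𝓡 n) (chartAt (E n) (f x) : Y → E n) (f (p a)) Dψ := by
      rw [hp2]
      exact hψ.mdifferentiableAt.hasMFDerivAt
    have d4 : HasMFDerivAt (𝓡 n) (𝓡 n) (fun z => f (p z)) a (Df ∘L Dp) :=
      HasMFDerivAt.comp (g := f) (f := p) a d2 d1
    have d5 : HasMFDerivAt (𝓡 n) (𝓡 n) (fun z => chartAt (E n) (f x) (f (p z))) a
        (Dψ ∘L (Df ∘L Dp)) :=
      HasMFDerivAt.comp (g := (chartAt (E n) (f x) : Y → E n)) (f := fun z => f (p z)) a d3 d4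
    have d6 : HasFDerivAt (fun z => chartAt (E n) (f x) (f (p z))) (Dψ ∘L (Df ∘L Dp)) a :=
      hasMFDerivAt_iff_hasFDerivAt.1 d5
    have hinj : Injective (Dψ ∘L (Df ∘L Dp)) := by
      have i1 : Injective Dψ := hψ.mfderiv_injective
      have i2 : Injective Dp := hp1.mfderiv_injective
      have i3 : Injective Df := h
      exact i1.comp (i3.comp i2)
    let B : E n ≃ₗ[ℝ] E n := LinearEquiv.ofInjectiveEndo (Dψ ∘L (Df ∘L Dp)).toLinearMap hinj
    refine LD_of_contDiffAt hce B.toContinuousLinearEquiv ?_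
    have hB : ((B.toContinuousLinearEquiv : E n ≃L[ℝ] E n) : E n →L[ℝ] E n) =
        Dψ ∘L (Df ∘L Dp) := by
      ext1 v
      rfl
    rw [hB]
    exact d6
  have h5 : LD n (fun y => (fun z => chartAt (E n) (f x) (f (p z))) (chartAt (E n) x y)) x :=
    LD.comp_fun (g := fun z => chartAt (E n) (f x) (f (p z)))
      (f := fun y => chartAt (E n) x y) hg hφ
  have h6 : LD n q ((fun z => chartAt (E n) (f x) (f (p z))) (chartAt (E n) x x)) := by
    have : (fun z => chartAt (E n) (f x) (f (p z))) (chartAt (E n) x x) =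
        chartAt (E n) (f x) (f x) := by
      show chartAt (E n) (f x) (f (p a)) = chartAt (E n) (f x) (f x)
      rw [hp2]
    rw [this]
    exact hq1
  have h7 : LD n (fun y => q ((fun z => chartAt (E n) (f x) (f (p z))) (chartAt (E n) x y))) x :=
    LD.comp_fun (g := q)
      (f := fun y => (fun z => chartAt (E n) (f x) (f (p z))) (chartAt (E n) x y)) h6 h5
  refine h7.congr ?_
  have h8 : ∀ᶠ y in 𝓝 x, q (chartAt (E n) (f x) (f y)) = f y :=
    hf.continuous.continuousAt.eventually hq3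
  filter_upwards [hp3, h8] with y hy1 hy2
  show f y = q (chartAt (E n) (f x) (f (p (chartAt (E n) x y))))
  rw [hy1, hy2]

end ift

section adapt

variable {m : ℕ} {Y : Type} [TopologicalSpace Y] [ChartedSpace (E (m + 1)) Y]
  [IsManifold (𝓡 (m + 1)) ∞ Y]

/-- coordinates in which a given function is linear -/
theorem exists_adapted (τ : Y → ℝ) (hτ : ContMDiff (𝓡 (m + 1)) 𝓘(ℝ, ℝ) ∞ τ) (y0 : Y)
    (hd : mfderiv (𝓡 (m + 1)) 𝓘(ℝ, ℝ) τ y0 ≠ 0) :
    ∃ e : OpenPartialHomeomorph Y (E (m + 1)), y0 ∈ e.source ∧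
      (∀ y ∈ e.source, LD (m + 1) (e : Y → E (m + 1)) y) ∧
      (∀ z ∈ e.target, LD (m + 1) (e.symm : E (m + 1) → Y) z) ∧
      ∀ y ∈ e.source, (e y) 0 = τ y - τ y0 := by
  obtain ⟨e0, he0, -, hev⟩ := Pool.Agent.Y641.SH.stAdapt m Y τ y0
    (Eventually.of_forall fun y => hτ.contMDiffAt) hd
  obtain ⟨Φ, hΦ, heq⟩ := he0
  obtain ⟨s, hs, hso, hys⟩ := _root_.eventually_nhds_iff.1 hev
  let Ψ := Φ.toOpenPartialHomeomorph.restrOpen s hso
  have hsrc : Ψ.source = Φ.source ∩ s := OpenPartialHomeomorph.restrOpen_source _ _ _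
  have hLD : ∀ y ∈ Ψ.source, LD (m + 1) (Ψ : Y → E (m + 1)) y := by
    intro y hy
    rw [hsrc] at hy
    exact ⟨Φ, hy.1, fun _ _ => rfl⟩
  refine ⟨Ψ, by rw [hsrc]; exact ⟨hΦ, hys⟩, hLD, ?_, ?_⟩
  · intro z hz
    have h2 := LD.inverse (n := m + 1) Ψ.open_source hLD (g := (Ψ.symm : E (m + 1) → Y))
      (fun x hx => Ψ.left_inv hx) (Ψ.map_target hz)
    rwa [Ψ.right_inv hz] at h2
  · intro y hy
    rw [hsrc] at hy
    have h1 := hs y hy.2
    rw [← h1]
    have h2 : e0 y = Φ.toPartialEquiv y := heq hy.1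
    rw [h2]
    rfl

end adapt

end Pool.Agent.Y761.CI
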