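import Pool.Agent.Y47.SH.NBox

/-!
# Boxes in normal form for a given projection
-/

set_option autoImplicit false

open Set Filter Topology Metric Function
open scoped Manifold ContDiff

noncomputable section

namespace Pool.Agent.Y761.CI

open Pool.Agent.Y522 Pool.Agent.Y47.SH

/-- The construction of a box in normal form for a given projection. -/
theorem nbox' {m : ℕ} {X : Type} [TopologicalSpace X] [ChartedSpace (E (m + 1)) X]
    [IsManifold (𝓡 (m + 1)) ∞ X] (F : X → E (m + 1)) (hFc : Continuous F) (hFi : Injective F)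
    (x : X) (P : E (m + 1) →L[ℝ] E m)
    (hPs : ∀ᶠ y in 𝓝 x, ContMDiffAt (𝓡 (m + 1)) (𝓡 m) ∞ (fun y => P (F y)) y)
    (hPd : Surjective (mfderiv (𝓡 (m + 1)) (𝓡 m) (fun y => P (F y)) x)) :
    ∃ (A : E (m + 1) → X) (L : E (m + 1) ≃L[ℝ] E (m + 1)) (b : E m),
      A 0 = x ∧ NBox m F A L b ∧ ∀ v, tl (L v) = 0 → P v = 0 := by
  obtain ⟨pf, hpf⟩ : ∃ pf : X → E m, pf = fun y => P (F y) := ⟨_, rfl⟩
  rw [← hpf] at hPs hPd
  obtain ⟨φ, hφ⟩ : ∃ φ, φ = chartAt (E (m + 1)) x := ⟨_, rfl⟩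
  have hxs : x ∈ φ.source := by rw [hφ]; exact mem_chart_source _ x
  have hLD : LD (m + 1) φ x := by rw [hφ]; exact Pool.Agent.Y641.SH.LD_chart x
  obtain ⟨p, hp⟩ : ∃ p, p = φ x := ⟨_, rfl⟩
  obtain ⟨q, hq⟩ : ∃ q : E (m + 1) → E m, q = fun z => pf (φ.symm z) := ⟨_, rfl⟩
  have hpt : p ∈ φ.target := by rw [hp]; exact φ.map_source hxs
  have hpx : φ.symm p = x := by rw [hp]; exact φ.left_inv hxs
  have hsym : ∀ z ∈ φ.target, ContMDiffAt (𝓡 (m + 1)) (𝓡 (m + 1)) ∞ φ.symm z := by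
    intro z hz
    rw [hφ] at hz ⊢
    exact (contMDiffOn_chart_symm z hz).contMDiffAt
      ((chartAt (E (m + 1)) x).open_target.mem_nhds hz)
  have hqs : ∀ᶠ z in 𝓝 p, ContDiffAt ℝ ∞ q z := by
    have h1 : Tendsto φ.symm (𝓝 p) (𝓝 x) := by
      have := φ.symm.continuousAt (x := p) hpt
      rw [ContinuousAt, hpx] at this
      exact this
    filter_upwards [h1.eventually hPs, φ.open_target.mem_nhds hpt] with z hz hzt
    rw [hq]
    exact contMDiffAt_iff_contDiffAt.1 (hz.comp z (hsym z hzt))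
  have hqp : ContDiffAt ℝ ∞ q p := hqs.self_of_nhds
  obtain ⟨D, hD⟩ : ∃ D, D = fderiv ℝ q p := ⟨_, rfl⟩
  have hqd : HasFDerivAt q D p := by
    rw [hD]
    exact (hqp.differentiableAt (by simp)).hasFDerivAt
  have hqφ : ∀ᶠ y in 𝓝 x, pf y = q (φ y) := by
    filter_upwards [φ.open_source.mem_nhds hxs] with y hy
    rw [hq]
    simp only
    rw [φ.left_inv hy]
  have hDs : Surjective D := by
    have h1 : pf =ᶠ[𝓝 x] q ∘ φ := hqφ
    have h2 : MDifferentiableAt (𝓡 (m + 1)) (𝓡 m) q (φ x) := by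
      rw [← hp]
      exact (hqp.differentiableAt (by simp)).mdifferentiableAt
    have h3 : MDifferentiableAt (𝓡 (m + 1)) (𝓡 (m + 1)) φ x :=
      hLD.contMDiffAt.mdifferentiableAt (by simp)
    have h4 : mfderiv (𝓡 (m + 1)) (𝓡 m) pf x =
        D.comp (mfderiv (𝓡 (m + 1)) (𝓡 (m + 1)) φ x) := by
      rw [h1.mfderiv_eq, mfderiv_comp x h2 h3, mfderiv_eq_fderiv, ← hp, ← hD]
      rfl
    intro y
    obtain ⟨v, hv⟩ := hPd y
    rw [h4] at hv
    exact ⟨_, hv⟩
  have hPsurj : Surjective P := by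
    refine surj_of_deriv (f := fun z => F (φ.symm z)) (Eventually.of_forall fun z => ?_) hqd hDs
    rw [hq, hpf]
  obtain ⟨L0, hL0⟩ := exists_tail P hPsurj
  obtain ⟨B, hB⟩ := exists_tail D hDs
  -- adapted coordinates of the domain
  obtain ⟨h, hh⟩ : ∃ h : E (m + 1) → E (m + 1),
      h = fun z => B (z - p) + inc (q z - q p - D (z - p)) := ⟨_, rfl⟩
  have hhd : HasFDerivAt h (B : E (m + 1) →L[ℝ] E (m + 1)) p := by
    rw [hh]
    have h1 : HasFDerivAt (fun z : E (m + 1) => z - p) (ContinuousLinearMap.id ℝ _) p :=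
      (hasFDerivAt_id p).sub_const p
    have h2 : HasFDerivAt (fun z : E (m + 1) => B (z - p)) (B : E (m + 1) →L[ℝ] E (m + 1)) p := by
      have := (B : E (m + 1) →L[ℝ] E (m + 1)).hasFDerivAt.comp p h1
      rw [ContinuousLinearMap.comp_id] at this
      exact this
    have h3 : HasFDerivAt (fun z : E (m + 1) => D (z - p)) D p := by
      have := D.hasFDerivAt.comp p h1
      rw [ContinuousLinearMap.comp_id] at this
      exact this
    have h4 : HasFDerivAt (fun z : E (m + 1) => q z - q p - D (z - p)) (D - D) p :=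
      (hqd.sub_const (q p)).sub h3
    have h5 := h2.add ((inc : E m →L[ℝ] E (m + 1)).hasFDerivAt.comp p h4)
    have h6 : (B : E (m + 1) →L[ℝ] E (m + 1)) + (inc : E m →L[ℝ] E (m + 1)).comp (D - D) = B := by
      rw [sub_self, ContinuousLinearMap.comp_zero, add_zero]
    rw [h6] at h5
    exact h5
  have hhs : ∀ᶠ z in 𝓝 p, ContDiffAt ℝ ∞ h z := by
    filter_upwards [hqs] with z hz
    rw [hh]
    have h1 : ContDiffAt ℝ ∞ (fun z : E (m + 1) => z - p) z :=
      contDiffAt_id.sub contDiffAt_const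
    exact (B.contDiff.contDiffAt.comp z h1).add
      ((inc : E m →L[ℝ] E (m + 1)).contDiff.contDiffAt.comp z
        ((hz.sub contDiffAt_const).sub (D.contDiff.contDiffAt.comp z h1)))
  have hhLD : LD (m + 1) h p := LD_of_contDiffAt hhs B hhd
  have hGLD : LD (m + 1) (fun y => h (φ y)) x := by
    rw [hp] at hhLD
    exact LD.comp_fun hhLD hLD
  have hG0 : h (φ x) = 0 := by
    simp only [hh, ← hp, sub_self, map_zero, add_zero]
  have hGt : ∀ᶠ y in 𝓝 x, tl (h (φ y)) = pf y - pf x := by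
    filter_upwards [hqφ] with y hy
    rw [hy, hqφ.self_of_nhds, ← hp, hh]
    simp only [map_add, hB, inc_apply, tl_cn]
    abel
  obtain ⟨A0, hA0, hA0x, -, hA0r⟩ := hGLD.exists_inverse
  simp only [hG0] at hA0 hA0x hA0r
  have hA0t : Tendsto A0 (𝓝 0) (𝓝 x) := by
    have := hA0.continuousAt
    rw [ContinuousAt, hA0x] at this
    exact this
  have hev : ∀ᶠ z in 𝓝 (0 : E (m + 1)), LD (m + 1) A0 z ∧ h (φ (A0 z)) = z ∧
      (∀ᶠ y in 𝓝 (A0 z), ContMDiffAt (𝓡 (m + 1)) (𝓡 m) ∞ pf y) ∧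
      pf (A0 z) = tl z + pf x := by
    filter_upwards [hA0.eventually, hA0r, hA0t.eventually hPs.eventually_nhds,
      hA0t.eventually hGt] with z h1 h2 h3 h4
    refine ⟨h1, h2, h3, ?_⟩
    rw [h2] at h4
    rw [h4]
    abel
  obtain ⟨ρ, hρ, hρs⟩ := Metric.eventually_nhds_iff.1 hev
  obtain ⟨r, hr, hrρ⟩ : ∃ r : ℝ, 0 < r ∧ 2 * r < ρ := ⟨ρ / 3, by positivity, by linarith⟩
  have hbox : ∀ z ∈ box m 1 1, dist (r • z) 0 < ρ := by
    rintro z ⟨h1, h2⟩
    rw [dist_zero_right, norm_smul, Real.norm_of_nonneg hr.le]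
    have h3 : ‖z‖ ≤ 2 := by
      have h4 := norm_sq_split z
      have h5 : (z 0) ^ 2 ≤ 1 := by
        have := sq_abs (z 0)
        nlinarith [abs_nonneg (z 0)]
      nlinarith [norm_nonneg (tl z), norm_nonneg z]
    nlinarith
  have hr' : r⁻¹ ≠ 0 := inv_ne_zero hr.ne'
  obtain ⟨S, hS⟩ := exists_scale (m + 1) r hr.ne'
  obtain ⟨S', hS'⟩ := exists_scale (m + 1) r⁻¹ hr'
  obtain ⟨A, hA⟩ : ∃ A : E (m + 1) → X, A = fun z => A0 (r • z) := ⟨_, rfl⟩
  have hAinj : InjOn A (box m 1 1) := by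
    intro z hz z' hz' hzz
    rw [hA] at hzz
    simp only at hzz
    have h1 := (hρs (hbox z hz)).2.1
    have h2 := (hρs (hbox z' hz')).2.1
    rw [hzz, h2] at h1
    exact (smul_right_injective _ hr.ne' h1).symm
  have hALD : ∀ z ∈ box m 1 1, LD (m + 1) A z := by
    intro z hz
    have h1 : LD (m + 1) (fun z => A0 (S z)) z := by
      refine LD.comp_fun ?_ (LD_linear S z)
      rw [hS]
      exact (hρs (hbox z hz)).1
    refine h1.congr (Eventually.of_forall fun w => ?_)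
    rw [hA]
    simp only [hS]
  -- the result for a given linear equivalence of the target
  obtain ⟨b, hb⟩ : ∃ b : E m, b = r⁻¹ • pf x := ⟨_, rfl⟩
  have key : ∀ L : E (m + 1) ≃L[ℝ] E (m + 1), (∀ v, tl (L v) = r⁻¹ • P v) →
      (∀ z ∈ box m 1 1,
        ∀ᶠ y in 𝓝 (A z), ContMDiffAt (𝓡 (m + 1)) (𝓡 m) ∞ (fun y => tl (L (F y))) y) ∧
      (∀ z ∈ box m 1 1, tl (L (F (A z))) = tl z + b) := by
    intro L hL
    refine ⟨fun z hz => ?_, fun z hz => ?_⟩
    · have h1 := (hρs (hbox z hz)).2.2.1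
      have h2 : A0 (r • z) = A z := by rw [hA]
      rw [h2] at h1
      filter_upwards [h1] with y hy
      have h3 : (fun y => tl (L (F y))) = fun y => r⁻¹ • pf y := by
        funext y
        rw [hL, hpf]
      rw [h3]
      exact ((contDiff_const_smul (𝕜 := ℝ) (F := E m) (n := ∞) r⁻¹).contMDiff.contMDiffAt).comp y hy
    · have h1 := (hρs (hbox z hz)).2.2.2
      have h2 : A0 (r • z) = A z := by rw [hA]
      rw [h2] at h1
      have h3 : P (F (A z)) = pf (A z) := by rw [hpf]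
      rw [hL, h3, h1, map_smul, smul_add, smul_smul, inv_mul_cancel₀ hr.ne', one_smul, hb]
  obtain ⟨L1, hL1⟩ : ∃ L1 : E (m + 1) ≃L[ℝ] E (m + 1), ∀ v, L1 v = r⁻¹ • L0 v :=
    ⟨L0.trans S', fun v => by rw [ContinuousLinearEquiv.trans_apply, hS']⟩
  have hL1t : ∀ v, tl (L1 v) = r⁻¹ • P v := fun v => by rw [hL1, map_smul, hL0]
  obtain ⟨g, hg⟩ : ∃ g : E (m + 1) → ℝ, g = fun z => (L1 (F (A z))) 0 := ⟨_, rfl⟩
  have hgc : ∀ z ∈ box m 1 1, ContinuousAt g z := by
    intro z hz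
    rw [hg]
    have h1 : ContinuousAt (fun z => L1 (F (A z))) z :=
      (L1.continuous.comp hFc).continuousAt.comp (hALD z hz).continuousAt
    exact continuous_head.continuousAt.comp h1
  have hginj : ∀ z ∈ box m 1 1, ∀ z' ∈ box m 1 1, tl z = tl z' → g z = g z' → z = z' := by
    intro z hz z' hz' ht hzz
    apply hAinj hz hz'
    apply hFi
    apply L1.injective
    rw [hg] at hzz
    have h1 := (key L1 hL1t).2 z hz
    have h2 := (key L1 hL1t).2 z' hz'
    rw [← cn_tl (L1 (F (A z))), ← cn_tl (L1 (F (A z'))), h1, h2, ht]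
    simp only at hzz
    rw [hzz]
  have hcnbox : ∀ x : E m, ‖x‖ ≤ 1 → ∀ t ∈ Icc (-1 : ℝ) 1, cn t x ∈ box m 1 1 := by
    intro x hx t ht
    refine ⟨by simpa using hx, ?_⟩
    rw [cn_zero]
    exact abs_le.2 ht
  have hmono : ∀ x : E m, ‖x‖ ≤ 1 → StrictMonoOn (fun t => g (cn t x)) (Icc (-1) 1) ∨
      StrictAntiOn (fun t => g (cn t x)) (Icc (-1) 1) := by
    intro x hx
    refine ContinuousOn.strictMonoOn_of_injOn_Icc' (by norm_num) ?_ ?_
    · intro t ht
      have h1 : ContinuousAt (fun t : ℝ => cn t x) t :=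
        (continuous_cn.comp (by fun_prop : Continuous fun t : ℝ => (t, x))).continuousAt
      exact (ContinuousAt.comp (g := g) (f := fun t : ℝ => cn t x) (hgc _ (hcnbox x hx t ht))
        h1).continuousWithinAt
    · intro t ht t' ht' htt
      have h1 := hginj _ (hcnbox x hx t ht) _ (hcnbox x hx t' ht') (by simp) htt
      have h2 := congrArg (fun z : E (m + 1) => z 0) h1
      simpa using h2
  obtain ⟨d, hd⟩ : ∃ d : E m → ℝ, d = fun x => g (cn 1 x) - g (cn (-1) x) := ⟨_, rfl⟩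
  have hdc : ContinuousOn d (closedBall 0 1) := by
    intro x hx
    have hx' : ‖x‖ ≤ 1 := by simpa using hx
    have h1 : ∀ t : ℝ, ContinuousAt (fun x : E m => cn t x) x := fun t =>
      (continuous_cn.comp (by fun_prop : Continuous fun x : E m => (t, x))).continuousAt
    rw [hd]
    exact ((ContinuousAt.comp (g := g) (f := fun x : E m => cn 1 x)
      (hgc _ (hcnbox x hx' 1 (by norm_num))) (h1 1)).sub
      (ContinuousAt.comp (g := g) (f := fun x : E m => cn (-1) x)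
        (hgc _ (hcnbox x hx' (-1) (by norm_num))) (h1 (-1)))).continuousWithinAt
  have hd0 : ∀ x : E m, ‖x‖ ≤ 1 → d x ≠ 0 := by
    intro x hx h0
    rw [hd] at h0
    have h1 := hginj _ (hcnbox x hx 1 (by norm_num)) _ (hcnbox x hx (-1) (by norm_num)) (by simp)
      (sub_eq_zero.1 h0)
    have h2 := congrArg (fun z : E (m + 1) => z 0) h1
    simp only [cn_zero] at h2
    norm_num at h2
  have hsign : (∀ x : E m, ‖x‖ ≤ 1 → 0 < d x) ∨ (∀ x : E m, ‖x‖ ≤ 1 → d x < 0) := by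
    by_contra hcon
    push Not at hcon
    obtain ⟨⟨x1, hx1, h1⟩, x2, hx2, h2⟩ := hcon
    have hpc : IsPreconnected (closedBall (0 : E m) 1) := (convex_closedBall 0 1).isPreconnected
    obtain ⟨x3, hx3, h3⟩ := hpc.intermediate_value (by simpa using hx1) (by simpa using hx2) hdc
      (⟨h1, h2⟩ : (0 : ℝ) ∈ Icc (d x1) (d x2))
    exact hd0 x3 (by simpa using hx3) h3
  have hpt1 : ∀ z ∈ box m 1 1, z 0 ∈ Icc (-1 : ℝ) 1 := fun z hz => abs_le.1 hz.2
  rcases hsign with hpos | hneg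
  · refine ⟨A, L1, b, by rw [hA]; simpa using hA0x, ⟨hAinj, hALD, (key L1 hL1t).1,
      (key L1 hL1t).2, ?_⟩, fun v hv => (smul_eq_zero.1 ((hL1t v).symm.trans hv)).resolve_left hr'⟩
    intro z hz z' hz' ht hlt
    have h1 : StrictMonoOn (fun t => g (cn t (tl z))) (Icc (-1) 1) := by
      rcases hmono (tl z) hz.1 with h | h
      · exact h
      · exfalso
        have h2 := h (by norm_num : (-1 : ℝ) ∈ Icc (-1 : ℝ) 1) (by norm_num : (1 : ℝ) ∈ Icc (-1 : ℝ) 1)
          (by norm_num)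
        have h3 := hpos (tl z) hz.1
        rw [hd] at h3
        simp only at h2 h3
        linarith
    have h2 := h1 (hpt1 z hz) (hpt1 z' hz') hlt
    simp only at h2
    rw [cn_tl, ht, cn_tl, hg] at h2
    exact h2
  · obtain ⟨R, hR0, hRt⟩ := exists_refl m
    obtain ⟨L2, hL2⟩ : ∃ L2 : E (m + 1) ≃L[ℝ] E (m + 1), ∀ v, L2 v = R (L1 v) :=
      ⟨L1.trans R, fun v => rfl⟩
    have hL2t : ∀ v, tl (L2 v) = r⁻¹ • P v := fun v => by rw [hL2, hRt, hL1t]
    refine ⟨A, L2, b, by rw [hA]; simpa using hA0x, ⟨hAinj, hALD, (key L2 hL2t).1,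
      (key L2 hL2t).2, ?_⟩, fun v hv => (smul_eq_zero.1 ((hL2t v).symm.trans hv)).resolve_left hr'⟩
    intro z hz z' hz' ht hlt
    have h1 : StrictAntiOn (fun t => g (cn t (tl z))) (Icc (-1) 1) := by
      rcases hmono (tl z) hz.1 with h | h
      · exfalso
        have h2 := h (by norm_num : (-1 : ℝ) ∈ Icc (-1 : ℝ) 1) (by norm_num : (1 : ℝ) ∈ Icc (-1 : ℝ) 1)
          (by norm_num)
        have h3 := hneg (tl z) hz.1
        rw [hd] at h3
        simp only at h2 h3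
        linarith
      · exact h
    have h2 := h1 (hpt1 z hz) (hpt1 z' hz') hlt
    simp only at h2
    rw [cn_tl, ht, cn_tl, hg] at h2
    simp only at h2
    rw [hL2, hL2, hR0, hR0]
    linarith

end Pool.Agent.Y761.CI
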